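import Pool.Agent.H19.PG.GQ

/-!
# Module FI of the board pg_modules
-/

set_option autoImplicit false

open Finset Filter

namespace Pool.Agent.H19.PG

open Pool.Agent.H25.PG Pool.Agent.H55.PM

/-- upper comparison -/
lemma up_cmp {p n X J : ℕ} {γ : ℝ} (hγ : 0 ≤ γ) (h1 : p ≤ 2 ^ X) (h2 : 2 ^ J ≤ n)
    (h3 : (X : ℝ) ≤ γ * J) : (p : ℝ) ≤ (n : ℝ) ^ γ := by
  have e1 : (p : ℝ) ≤ (2 : ℝ) ^ (X : ℝ) := by
    rw [Real.rpow_natCast]
    exact_mod_cast h1
  have e2 : ((2 : ℝ) ^ (J : ℝ)) ^ γ ≤ (n : ℝ) ^ γ := by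
    apply Real.rpow_le_rpow (by positivity) _ hγ
    rw [Real.rpow_natCast]
    exact_mod_cast h2
  rw [← Real.rpow_mul (by norm_num)] at e2
  refine (e1.trans ?_).trans e2
  apply Real.rpow_le_rpow_of_exponent_le (by norm_num)
  rw [mul_comm]
  exact h3

/-- lower comparison -/
lemma low_cmp {p n X J : ℕ} {γ : ℝ} (hn : 1 ≤ n) (h1 : 2 ^ X ≤ p) (h2 : n ≤ 2 ^ J)
    (h3 : γ * J ≤ (X : ℝ)) : (n : ℝ) ^ γ ≤ (p : ℝ) := by
  have e1 : (2 : ℝ) ^ (X : ℝ) ≤ (p : ℝ) := by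
    rw [Real.rpow_natCast]
    exact_mod_cast h1
  refine le_trans ?_ e1
  rcases le_total γ 0 with hγ | hγ
  · have e2 : (n : ℝ) ^ γ ≤ 1 := Real.rpow_le_one_of_one_le_of_nonpos (by exact_mod_cast hn) hγ
    refine e2.trans ?_
    apply Real.one_le_rpow (by norm_num) (Nat.cast_nonneg X)
  · have e2 : (n : ℝ) ^ γ ≤ ((2 : ℝ) ^ (J : ℝ)) ^ γ := by
      apply Real.rpow_le_rpow (by positivity) _ hγ
      rw [Real.rpow_natCast]
      exact_mod_cast h2
    rw [← Real.rpow_mul (by norm_num)] at e2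
    refine e2.trans ?_
    apply Real.rpow_le_rpow_of_exponent_le (by norm_num)
    rw [mul_comm]
    exact h3

lemma inj_tower : Function.Injective (fun b : ℕ => 2 ^ 2 ^ b) := by
  intro a b h
  exact Nat.pow_right_injective (le_refl 2) (Nat.pow_right_injective (le_refl 2) h)

lemma V4_inf : V4.Infinite := by
  have : V4 = Set.range (fun t : ℕ => 4 ^ t) := by
    ext v
    simp only [V4, Set.mem_ofPred_eq, Set.mem_range, eq_comm]
  rw [this]
  exact Set.infinite_range_of_injective (Nat.pow_right_injective (by norm_num))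

lemma V4c_inf : (V4ᶜ).Infinite := by
  have h : (Set.range (fun t : ℕ => 3 * t)).Infinite := by
    apply Set.infinite_range_of_injective
    intro a b hab
    have : 3 * a = 3 * b := hab
    omega
  apply h.mono
  rintro _ ⟨t, rfl⟩ ⟨s, hs⟩
  have h3 : 3 ∣ 4 ^ s := ⟨t, hs.symm⟩
  have h4 := Nat.Prime.dvd_of_dvd_pow (by norm_num : Nat.Prime 3) h3
  omega

lemma A_inf (E : Set ℕ) (hE : ∀ b ∉ V4, 2 ^ b ∈ E) : (PA 2 E).Infinite := by
  refine (V4c_inf.image (inj_tower.injOn)).mono ?_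
  rintro _ ⟨b, hb, rfl⟩
  exact ⟨2 ^ b, hE b hb, rfl⟩

lemma M_inf (F : Set ℕ) (hF : ∀ b ∈ V4, 2 ^ b ∈ F) : (PM 2 F).Infinite := by
  refine (V4_inf.image (inj_tower.injOn)).mono ?_
  rintro _ ⟨b, hb, rfl⟩
  refine ⟨by positivity, ?_⟩
  intro j hj
  have hne : j ≠ 2 ^ b := by
    rintro rfl
    exact hj (hF b hb)
  show 2 ^ 2 ^ b / 2 ^ j % 2 = 0
  rcases lt_or_gt_of_ne hne with h | h
  · rw [Nat.pow_div h.le (by norm_num)]
    have : 2 ^ b - j ≠ 0 := by omega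
    obtain ⟨m, hm⟩ := Nat.exists_eq_succ_of_ne_zero this
    rw [hm, pow_succ]
    omega
  · rw [Nat.div_eq_of_lt (Nat.pow_lt_pow_right (by norm_num) h)]

lemma IV_mem : ∀ b ∉ V4, 2 ^ b ∈ IV V4 := by
  intro b hb c hc
  rw [Nat.bitIndices_two_pow, List.mem_singleton] at hc
  rw [hc]
  exact hb

lemma EV_mem : ∀ b ∈ V4, 2 ^ b ∈ EV V4 := by
  intro b hb c hc
  rw [Nat.bitIndices_two_pow, List.mem_singleton] at hc
  rw [hc]
  exact hb

section

variable (hYC : T_YC) (k : ℕ → ℕ)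

include hYC

lemma Yc_le {J n : ℕ} (h : n < 2 ^ J) : (Yc (E1 k) (EV V4) n).card ≤ 2 ^ dc k J := by
  have h1 := hYC (SS (E1 k) (EV V4)) J
  rw [dc, ← h1, ← Set.ncard_coe_finset]
  apply Set.ncard_le_ncard
  · intro y hy
    simp only [Yc, coe_filter, mem_range, Set.mem_ofPred_eq] at hy
    exact ⟨by omega, hy.2⟩
  · exact (Set.finite_Iio (2 ^ J)).subset (fun y hy => hy.1)

lemma le_Yc {J n : ℕ} (h : 2 ^ J ≤ n + 1) : 2 ^ dc k J ≤ (Yc (E1 k) (EV V4) n).card := by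
  have h1 := hYC (SS (E1 k) (EV V4)) J
  rw [dc, ← h1, ← Set.ncard_coe_finset]
  apply Set.ncard_le_ncard
  · intro y hy
    simp only [Yc, coe_filter, mem_range, Set.mem_ofPred_eq]
    exact ⟨by have := hy.1; omega, hy.2⟩
  · exact Finset.finite_toSet _

end

theorem pf_FI (hDL : T_DL) (hGQ : T_GQ) (hYC : T_YC) (hTI : T_TI) : T_FI := by
  intro β α hβ hβα
  obtain ⟨K, hK1, hKα⟩ : ∃ K : ℕ, 1 ≤ K ∧ α ≤ K := by
    obtain ⟨K, hK⟩ := exists_nat_ge α
    exact ⟨K + 1, by omega, hK.trans (by push_cast; linarith)⟩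
  have hKr : (0 : ℝ) < K := by exact_mod_cast hK1
  obtain ⟨k, hk⟩ := hDL (β / K) (α / K) (div_nonneg hβ hKr.le)
    (div_le_div_of_nonneg_right hβα hKr.le) ((div_le_one hKr).2 hKα)
  have hE1 : E1 k ⊆ IV V4 := fun e he => he.1
  have hG := hGQ (IV V4) (EV V4) (E1 k) K (hTI V4) hE1
  set A : Set ℕ := PA 2 (IV V4) ∪ {c | ∃ i < K, ∃ e ∈ E1 k, c = (2 * i + 3) * 2 ^ e} with hA
  set C : ℕ := K * (2 * K + 1) + 1 with hC
  have hC1 : 1 ≤ C := by omega
  have hup : ∀ n J : ℕ, n < 2 ^ J → pc A (PM 2 (EV V4)) n ≤ 2 ^ (K * dc k J) := by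
    intro n J h
    refine (hG n).2.trans ?_
    rw [Yc_card, mul_comm, pow_mul]
    exact Nat.pow_le_pow_left (Yc_le hYC k h) K
  have hlow : ∀ n J : ℕ, 2 ^ J ≤ n / C + 1 → 2 ^ (K * dc k J) ≤ pc A (PM 2 (EV V4)) n := by
    intro n J h
    refine le_trans ?_ (hG n).1
    rw [Yc_card, mul_comm, pow_mul]
    exact Nat.pow_le_pow_left (le_Yc hYC k h) K
  have hone : ∀ n : ℕ, 1 ≤ pc A (PM 2 (EV V4)) n := by
    intro n
    have := hlow n 0 (by simp)
    exact le_trans Nat.one_le_two_pow this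
  obtain ⟨c, hc⟩ : ∃ c : ℕ, C ≤ 2 ^ c := ⟨C, Nat.lt_two_pow_self.le⟩
  refine ⟨A, PM 2 (EV V4), ?_, M_inf _ EV_mem, ?_, fun m hm => hm.1, hone, ?_⟩
  · exact (A_inf _ IV_mem).mono Set.subset_union_left
  · rintro a (h | h)
    · exact PA_pos _ a h
    · exact AK_pos (E1 k) K a h
  intro ε hε
  have hε2 : (0 : ℝ) < ε / (2 * K) := by positivity
  obtain ⟨h1, h2, h3⟩ := hk (ε / (2 * K)) hε2
  obtain ⟨J₀, hJ₀⟩ := eventually_atTop.1 h1
  -- eventually
  have hKup : ∀ J : ℕ, (dc k J : ℝ) ≤ (α / K + ε / (2 * K)) * J →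
      ((K * dc k J : ℕ) : ℝ) ≤ (α + ε / 2) * J := by
    intro J hJ
    push_cast
    calc (K : ℝ) * dc k J ≤ K * ((α / K + ε / (2 * K)) * J) := by gcongr
      _ = (α + ε / 2) * J := by field_simp
  have hKup' : ∀ J : ℕ, (dc k J : ℝ) ≤ (β / K + ε / (2 * K)) * J →
      ((K * dc k J : ℕ) : ℝ) ≤ (β + ε / 2) * J := by
    intro J hJ
    push_cast
    calc (K : ℝ) * dc k J ≤ K * ((β / K + ε / (2 * K)) * J) := by gcongr
      _ = (β + ε / 2) * J := by field_simp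
  have hKlow : ∀ J : ℕ, (β / K - ε / (2 * K)) * J ≤ (dc k J : ℝ) →
      (β - ε / 2) * J ≤ ((K * dc k J : ℕ) : ℝ) := by
    intro J hJ
    push_cast
    calc (β - ε / 2) * J = K * ((β / K - ε / (2 * K)) * J) := by field_simp
      _ ≤ (K : ℝ) * dc k J := by gcongr
  have hKlow' : ∀ J : ℕ, (α / K - ε / (2 * K)) * J ≤ (dc k J : ℝ) →
      (α - ε / 2) * J ≤ ((K * dc k J : ℕ) : ℝ) := by
    intro J hJ
    push_cast
    calc (α - ε / 2) * J = K * ((α / K - ε / (2 * K)) * J) := by field_simp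
      _ ≤ (K : ℝ) * dc k J := by gcongr
  obtain ⟨J₁, hJ₁⟩ := exists_nat_ge ((2 * (α + ε) * (c + 1) + 2 * (α + ε)) / ε)
  have hJ₁' : ∀ J : ℕ, J₁ ≤ J → (2 * (α + ε) * (c + 1) + 2 * (α + ε)) ≤ ε * J := by
    intro J hJ
    have e1 : (J₁ : ℝ) ≤ J := by exact_mod_cast hJ
    have e2 := (div_le_iff₀ hε).1 (hJ₁.trans e1)
    linarith
  have hc0 : (0 : ℝ) ≤ c := Nat.cast_nonneg c
  have hα : 0 ≤ α := hβ.trans hβα
  refine ⟨?_, ?_, ?_⟩
  · rw [eventually_atTop]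
    refine ⟨2 ^ (J₀ + J₁ + c), ?_⟩
    intro n hn
    have hn0 : n ≠ 0 := by
      have : 0 < 2 ^ (J₀ + J₁ + c) := by positivity
      omega
    set J := Nat.log 2 n with hJ
    have hJle : 2 ^ J ≤ n := Nat.pow_log_le_self 2 hn0
    have hJlt : n < 2 ^ (J + 1) := Nat.lt_pow_succ_log_self (by norm_num) n
    have hJbig : J₀ + J₁ + c ≤ J := (Nat.le_log_iff_pow_le (by norm_num) hn0).2 hn
    have hbig := hJ₁' J (by omega)
    constructor
    · obtain ⟨J', hJ'⟩ : ∃ J', J = J' + c := ⟨J - c, by omega⟩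
      have hl : 2 ^ (K * dc k J') ≤ pc A (PM 2 (EV V4)) n := by
        apply hlow
        have : 2 ^ J' ≤ n / C := by
          rw [Nat.le_div_iff_mul_le (by omega)]
          calc 2 ^ J' * C ≤ 2 ^ J' * 2 ^ c := Nat.mul_le_mul_left _ hc
            _ = 2 ^ J := by rw [hJ', pow_add]
            _ ≤ n := hJle
        omega
      apply low_cmp (by omega) hl hJlt.le
      refine le_trans ?_ (hKlow J' (hJ₀ J' (by omega)).1)
      have hJr : (J : ℝ) = J' + c := by exact_mod_cast hJ'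
      push_cast
      rw [hJr] at hbig ⊢
      nlinarith [mul_nonneg hc0 hβ, mul_nonneg hc0 hε.le, mul_nonneg hc0 hα]
    · apply up_cmp (by positivity) (hup n (J + 1) hJlt) hJle
      refine le_trans (hKup (J + 1) (hJ₀ (J + 1) (by omega)).2) ?_
      push_cast
      nlinarith [mul_nonneg hc0 hε.le, mul_nonneg hc0 hα]
  · rw [frequently_atTop]
    intro a
    obtain ⟨J, hJ, hJ'⟩ := (frequently_atTop.1 h2) (a + J₁ + 2)
    refine ⟨2 ^ J - 1, ?_, ?_⟩
    · have : J < 2 ^ J := Nat.lt_two_pow_self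
      omega
    · obtain ⟨J', rfl⟩ : ∃ J', J = J' + 1 := ⟨J - 1, by omega⟩
      have hpos : 0 < 2 ^ (J' + 1) := by positivity
      apply up_cmp (by positivity) (hup _ (J' + 1) (by omega)) (J := J')
      · rw [pow_succ]
        have : 1 ≤ 2 ^ J' := Nat.one_le_two_pow
        omega
      · refine le_trans (hKup' _ hJ') ?_
        have hbig := hJ₁' J' (by omega)
        push_cast
        nlinarith [mul_nonneg hc0 hε.le, mul_nonneg hc0 hα, mul_nonneg hc0 hβ]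
  · rw [frequently_atTop]
    intro a
    obtain ⟨J, hJ, hJ'⟩ := (frequently_atTop.1 h3) (a + J₁ + 2)
    have hlt : J < 2 ^ J := Nat.lt_two_pow_self
    refine ⟨C * 2 ^ J, ?_, ?_⟩
    · have : 2 ^ J ≤ C * 2 ^ J := Nat.le_mul_of_pos_left _ (by omega)
      omega
    · have hl : 2 ^ (K * dc k J) ≤ pc A (PM 2 (EV V4)) (C * 2 ^ J) := by
        apply hlow
        rw [Nat.mul_div_cancel_left _ (by omega)]
        omega
      have h4 : C * 2 ^ J ≤ 2 ^ (J + c) := by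
        rw [pow_add, mul_comm]
        exact Nat.mul_le_mul_left _ hc
      have h5 : 1 ≤ C * 2 ^ J := Nat.mul_pos (by omega) (by positivity)
      apply low_cmp h5 hl h4
      refine le_trans ?_ (hKlow' _ hJ')
      have hbig := hJ₁' J (by omega)
      push_cast
      nlinarith [mul_nonneg hc0 hε.le, mul_nonneg hc0 hα, mul_nonneg hc0 hβ]

end Pool.Agent.H19.PG
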