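import Pool.Agent.H25.PG.Targets

/-!
# Module GQ of the board pg_modules
-/

set_option autoImplicit false

open Finset

namespace Pool.Agent.H19.PG

open Pool.Agent.H25.PG Pool.Agent.H55.PM

/-- `K` scaled copies of the powers of two with exponents in `E₁` -/
def AK (E₁ : Set ℕ) (K : ℕ) : Set ℕ := {c | ∃ i < K, ∃ e ∈ E₁, c = (2 * i + 3) * 2 ^ e}

/-- the last copy -/
def BK (E₁ : Set ℕ) (K : ℕ) : Set ℕ := {c | ∃ a ∈ PA 2 E₁, c = (2 * K + 3) * a}

lemma odd_part {a b e e' : ℕ} (h : (2 * a + 1) * 2 ^ e = (2 * b + 1) * 2 ^ e') : a = b := by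
  have h1 : ∀ c k : ℕ, Nat.Coprime (2 * c + 1) (2 ^ k) := by
    intro c k
    apply Nat.Coprime.pow_right
    have : Nat.Coprime (2 * c + 1) 2 ↔ Odd (2 * c + 1) := Nat.coprime_two_right
    exact this.2 ⟨c, rfl⟩
  have h2 : 2 * a + 1 ∣ 2 * b + 1 :=
    (h1 a e').dvd_of_dvd_mul_right (h ▸ Dvd.intro _ rfl)
  have h3 : 2 * b + 1 ∣ 2 * a + 1 :=
    (h1 b e).dvd_of_dvd_mul_right (h.symm ▸ Dvd.intro _ rfl)
  have h4 := Nat.dvd_antisymm h2 h3
  omega

lemma AK_zero (E₁ : Set ℕ) : AK E₁ 0 = ∅ := by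
  ext c
  simp [AK]

lemma AK_succ (E₁ : Set ℕ) (K : ℕ) : AK E₁ (K + 1) = AK E₁ K ∪ BK E₁ K := by
  ext c
  constructor
  · rintro ⟨i, hi, e, he, rfl⟩
    rcases Nat.lt_succ_iff_lt_or_eq.1 hi with h | h
    · exact Or.inl ⟨i, h, e, he, rfl⟩
    · subst h
      exact Or.inr ⟨2 ^ e, ⟨e, he, rfl⟩, rfl⟩
  · rintro (⟨i, hi, e, he, rfl⟩ | ⟨a, ⟨e, he, rfl⟩, rfl⟩)
    · exact ⟨i, Nat.lt_succ_of_lt hi, e, he, rfl⟩
    · exact ⟨K, Nat.lt_succ_self K, e, he, rfl⟩

lemma PA_pos (E : Set ℕ) : ∀ a ∈ PA 2 E, 0 < a := by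
  rintro a ⟨e, _, rfl⟩
  positivity

lemma AK_pos (E₁ : Set ℕ) (K : ℕ) : ∀ a ∈ AK E₁ K, 0 < a := by
  rintro a ⟨i, _, e, _, rfl⟩
  positivity

lemma BK_pos (E₁ : Set ℕ) (K : ℕ) : ∀ a ∈ BK E₁ K, 0 < a := by
  rintro a ⟨_, ⟨e, _, rfl⟩, rfl⟩
  positivity

lemma disj_PA_AK (E E₁ : Set ℕ) (K : ℕ) : Disjoint (PA 2 E) (AK E₁ K) := by
  rw [Set.disjoint_left]
  rintro _ ⟨e, _, rfl⟩ ⟨i, _, e', _, h⟩
  have : (2 * 0 + 1) * 2 ^ e = (2 * (i + 1) + 1) * 2 ^ e' := by
    rw [show 2 * (i + 1) + 1 = 2 * i + 3 by ring, ← h]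
    ring
  have := odd_part this
  omega

lemma disj_BK (E E₁ : Set ℕ) (K : ℕ) : Disjoint (PA 2 E ∪ AK E₁ K) (BK E₁ K) := by
  rw [Set.disjoint_left]
  rintro c (⟨e, _, rfl⟩ | ⟨i, hi, e, _, rfl⟩) ⟨_, ⟨e', _, rfl⟩, h⟩
  · have : (2 * 0 + 1) * 2 ^ e = (2 * (K + 1) + 1) * 2 ^ e' := by
      rw [show 2 * (K + 1) + 1 = 2 * K + 3 by ring, ← h]
      ring
    have := odd_part this
    omega
  · have : (2 * (i + 1) + 1) * 2 ^ e = (2 * (K + 1) + 1) * 2 ^ e' := by
      rw [show 2 * (K + 1) + 1 = 2 * K + 3 by ring, ← h]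
      ring
    have := odd_part this
    omega

lemma anti_sum (f g : ℕ → ℕ) (n : ℕ) :
    ∑ x ∈ antidiagonal n, f x.1 * g x.2 = ∑ y ∈ range (n + 1), f (n - y) * g y := by
  rw [← Finset.Nat.sum_antidiagonal_swap]
  exact Finset.Nat.sum_antidiagonal_eq_sum_range_succ (fun a b => f b * g a) n

open Classical in
/-- the elements of `DS 2 (SS E₁ F)` up to `n` -/
noncomputable def Yc (E₁ F : Set ℕ) (n : ℕ) : Finset ℕ :=
  (range (n + 1)).filter (fun y => y ∈ DS 2 (SS E₁ F))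

lemma Yc_mono (E₁ F : Set ℕ) {a b : ℕ} (h : a ≤ b) : Yc E₁ F a ⊆ Yc E₁ F b := by
  intro y hy
  simp only [Yc, mem_filter, mem_range] at hy ⊢
  exact ⟨by omega, hy.2⟩

lemma Yc_card (E₁ F : Set ℕ) (n : ℕ) :
    {y | y ≤ n ∧ y ∈ DS 2 (SS E₁ F)}.ncard = (Yc E₁ F n).card := by
  rw [← Set.ncard_coe_finset]
  congr 1
  ext y
  simp only [Yc, coe_filter, mem_range, Nat.lt_succ_iff]

section

variable (hCV : T_CV) (hSC : T_SC) (hU : T_U) (E F E₁ : Set ℕ)

include hU in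
lemma pc_E (hT : Tile E F) (n : ℕ) : pc (PA 2 E) (PM 2 F) n = 1 := by
  have hinj : ∀ e ∈ E, ∀ e' ∈ E, ∀ f ∈ F, ∀ f' ∈ F, e + f = e' + f' → e = e' := by
    intro e he e' he' f hf f' hf' h
    have := (hT (e + f)).unique (y₁ := (e, f)) (y₂ := (e', f')) ⟨he, hf, rfl⟩ ⟨he', hf', h.symm⟩
    exact congrArg Prod.fst this
  rw [hU 2 E F le_rfl hinj n, if_pos]
  intro j hj
  exfalso
  apply hj
  obtain ⟨p, ⟨h1, h2, h3⟩, _⟩ := hT j
  exact ⟨p.1, h1, p.2, h2, h3⟩

open Classical in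
include hU in
lemma pc_E1 (hT : Tile E F) (hE : E₁ ⊆ E) (n : ℕ) :
    pc (PA 2 E₁) (PM 2 F) n = if n ∈ DS 2 (SS E₁ F) then 1 else 0 := by
  apply hU 2 E₁ F le_rfl
  intro e he e' he' f hf f' hf' h
  have := (hT (e + f)).unique (y₁ := (e, f)) (y₂ := (e', f')) ⟨hE he, hf, rfl⟩
    ⟨hE he', hf', h.symm⟩
  exact congrArg Prod.fst this

open Classical in
include hSC hU in
lemma pc_BK (hT : Tile E F) (hE : E₁ ⊆ E) (K n : ℕ) :
    pc (BK E₁ K) (PM 2 F) n =
      if (2 * K + 3) ∣ n ∧ n / (2 * K + 3) ∈ DS 2 (SS E₁ F) then 1 else 0 := by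
  have h := hSC (PA 2 E₁) (PM 2 F) (2 * K + 3) n (by omega) (PA_pos E₁)
  have h2 : pc (BK E₁ K) (PM 2 F) n =
      if (2 * K + 3) ∣ n then pc (PA 2 E₁) (PM 2 F) (n / (2 * K + 3)) else 0 := h
  rw [h2, pc_E1 hU E F E₁ hT hE]
  by_cases h3 : (2 * K + 3) ∣ n
  · simp [h3]
  · simp [h3]

/-- the partition function -/
noncomputable def QK (E F E₁ : Set ℕ) (K n : ℕ) : ℕ := pc (PA 2 E ∪ AK E₁ K) (PM 2 F) n

include hU in
lemma QK_zero (hT : Tile E F) (n : ℕ) : QK E F E₁ 0 n = 1 := by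
  rw [QK, AK_zero, Set.union_empty, pc_E hU E F hT]

include hCV hU in
lemma QK_mono (hT : Tile E F) (K : ℕ) {a b : ℕ} (h : a ≤ b) : QK E F E₁ K a ≤ QK E F E₁ K b := by
  have h1 : ∀ n, QK E F E₁ K n = ∑ y ∈ range (n + 1), pc (AK E₁ K) (PM 2 F) y := by
    intro n
    rw [QK, hCV _ _ _ n (PA_pos E) (AK_pos E₁ K) (disj_PA_AK E E₁ K),
      anti_sum (pc (PA 2 E) (PM 2 F)) (pc (AK E₁ K) (PM 2 F)) n]
    apply Finset.sum_congr rfl
    intro y _
    rw [pc_E hU E F hT, one_mul]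
  rw [h1, h1]
  apply Finset.sum_le_sum_of_subset
  intro x hx
  simp only [mem_range] at hx ⊢
  omega

open Classical in
include hCV hSC hU in
lemma QK_succ (hT : Tile E F) (hE : E₁ ⊆ E) (K n : ℕ) :
    QK E F E₁ (K + 1) n = ∑ y ∈ (range (n + 1)).filter (fun y => (2 * K + 3) ∣ y ∧
      y / (2 * K + 3) ∈ DS 2 (SS E₁ F)), QK E F E₁ K (n - y) := by
  rw [QK, AK_succ, ← Set.union_assoc, hCV _ _ _ n _ (BK_pos E₁ K) (disj_BK E E₁ K),
    anti_sum (pc (PA 2 E ∪ AK E₁ K) (PM 2 F)) (pc (BK E₁ K) (PM 2 F)) n, Finset.sum_filter]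
  · apply Finset.sum_congr rfl
    intro y _
    rw [pc_BK hSC hU E F E₁ hT hE]
    split_ifs <;> simp [QK]
  · rintro a (h | h)
    · exact PA_pos E a h
    · exact AK_pos E₁ K a h

include hCV hSC hU in
lemma QK_le (hT : Tile E F) (hE : E₁ ⊆ E) (K n : ℕ) :
    QK E F E₁ K n ≤ (Yc E₁ F n).card ^ K := by
  classical
  induction K with
  | zero => rw [QK_zero hU E F E₁ hT, pow_zero]
  | succ K ih =>
    rw [QK_succ hCV hSC hU E F E₁ hT hE, pow_succ']
    calc _ ≤ ∑ y ∈ (range (n + 1)).filter (fun y => (2 * K + 3) ∣ y ∧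
      y / (2 * K + 3) ∈ DS 2 (SS E₁ F)), (Yc E₁ F n).card ^ K := by
          apply Finset.sum_le_sum
          intro y _
          exact (QK_mono hCV hU E F E₁ hT K (Nat.sub_le n y)).trans ih
      _ ≤ _ := by
          rw [Finset.sum_const, smul_eq_mul]
          apply Nat.mul_le_mul_right
          apply Finset.card_le_card_of_injOn (fun y => y / (2 * K + 3))
          · intro y hy
            simp only [coe_filter, mem_range, Set.mem_ofPred_eq] at hy
            simp only [Yc, coe_filter, mem_range, Set.mem_ofPred_eq]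
            refine ⟨?_, hy.2.2⟩
            exact lt_of_le_of_lt (Nat.div_le_self _ _) hy.1
          · intro y hy y' hy' h
            simp only [coe_filter, mem_range, Set.mem_ofPred_eq] at hy hy'
            have h' : y / (2 * K + 3) = y' / (2 * K + 3) := h
            rw [← Nat.div_mul_cancel hy.2.1, ← Nat.div_mul_cancel hy'.2.1, h']

include hCV hSC hU in
lemma le_QK (hT : Tile E F) (hE : E₁ ⊆ E) (K : ℕ) : ∀ n z : ℕ, K * (K + 2) * z ≤ n →
    (Yc E₁ F z).card ^ K ≤ QK E F E₁ K n := by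
  classical
  induction K with
  | zero =>
    intro n z _
    rw [QK_zero hU E F E₁ hT, pow_zero]
  | succ K ih =>
    intro n z hz
    rw [QK_succ hCV hSC hU E F E₁ hT hE, pow_succ']
    have key : ∀ y ≤ z, (2 * K + 3) * y + K * (K + 2) * z ≤ n := by
      intro y hy
      calc _ ≤ (2 * K + 3) * z + K * (K + 2) * z :=
            Nat.add_le_add_right (Nat.mul_le_mul_left _ hy) _
        _ = (K + 1) * (K + 1 + 2) * z := by ring
        _ ≤ n := hz
    calc (Yc E₁ F z).card * (Yc E₁ F z).card ^ K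
        = ∑ y ∈ (Yc E₁ F z).image (fun y => (2 * K + 3) * y), (Yc E₁ F z).card ^ K := by
          rw [Finset.sum_const, smul_eq_mul, Finset.card_image_of_injective]
          intro a b hab
          have : (2 * K + 3) * a = (2 * K + 3) * b := hab
          exact Nat.eq_of_mul_eq_mul_left (by omega) this
      _ ≤ ∑ y ∈ (Yc E₁ F z).image (fun y => (2 * K + 3) * y), QK E F E₁ K (n - y) := by
          apply Finset.sum_le_sum
          intro y hy
          obtain ⟨x, hx, rfl⟩ := Finset.mem_image.1 hy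
          simp only [Yc, mem_filter, mem_range] at hx
          apply ih
          have := key x (by omega)
          omega
      _ ≤ _ := by
          apply Finset.sum_le_sum_of_subset
          intro y hy
          obtain ⟨x, hx, rfl⟩ := Finset.mem_image.1 hy
          simp only [Yc, mem_filter, mem_range] at hx
          have := key x (by omega)
          simp only [mem_filter, mem_range]
          refine ⟨by omega, Dvd.intro _ rfl, ?_⟩
          rw [Nat.mul_div_cancel_left _ (by omega)]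
          exact hx.2

end

theorem pf_GQ (_hRB : T_RB) (hCV : T_CV) (hSC : T_SC) (hU : T_U) : T_GQ := by
  intro E F E₁ K hT hE n
  rw [Yc_card, Yc_card]
  constructor
  · apply le_QK hCV hSC hU E F E₁ hT hE
    calc K * (K + 2) * (n / (K * (2 * K + 1) + 1))
        ≤ (K * (2 * K + 1) + 1) * (n / (K * (2 * K + 1) + 1)) := by
          apply Nat.mul_le_mul_right
          rcases Nat.eq_zero_or_pos K with h | h
          · subst h; simp
          · have : K + 2 ≤ 2 * K + 1 ∨ K = 1 := by omega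
            nlinarith [Nat.zero_le K, h]
      _ ≤ n := Nat.mul_div_le _ _
  · exact QK_le hCV hSC hU E F E₁ hT hE K n

end Pool.Agent.H19.PG
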